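import Pool.Agent.UMG.StmtsB

set_option autoImplicit false

namespace Pool.Agent.UMG.B.H24

open Finset Pool.Agent.UMG Pool.Agent.UMG.B

theorem per_rot (j : ℕ) (t : Fin j) : Function.minimalPeriod (finRotate j) t = j := by
  have key : ∀ s, Function.IsPeriodicPt (finRotate j) s t ↔ j ∣ s := by
    intro s
    show ((finRotate j) : Fin j → Fin j)^[s] t = t ↔ _
    rw [← Equiv.Perm.coe_pow, Fin.ext_iff, finRotate_pow_val]
    constructor
    · intro h
      have h1 : (t : ℕ) % j = t := Nat.mod_eq_of_lt t.2
      have h2 : (t : ℕ) + s ≡ (t : ℕ) + 0 [MOD j] := by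
        show _ % _ = _ % _
        rw [h, Nat.add_zero, h1]
      exact Nat.modEq_zero_iff_dvd.mp (Nat.ModEq.add_left_cancel' _ h2)
    · rintro ⟨q, rfl⟩
      rw [Nat.add_mul_mod_self_left, Nat.mod_eq_of_lt t.2]
  apply Nat.dvd_antisymm
  · exact ((key j).mpr dvd_rfl).minimalPeriod_dvd
  · exact (key _).mp (Function.isPeriodicPt_minimalPeriod _ _)

theorem per_inj {A B : Type} (i : A → B) (hi : Function.Injective i) (f : A → A) (g : B → B)
    (h : ∀ a, i (f a) = g (i a)) (a : A) :
    Function.minimalPeriod g (i a) = Function.minimalPeriod f a := by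
  rw [Function.minimalPeriod_eq_minimalPeriod_iff]
  intro n
  have hs : Function.Semiconj i f g := h
  have h1 := (hs.iterate_right n) a
  show g^[n] (i a) = i a ↔ f^[n] a = a
  rw [← h1]
  exact hi.eq_iff

theorem per : PerStmt := by
  intro L
  induction L with
  | nil => intro h; exact h.elim
  | cons b L ih =>
    intro h
    rcases h with t | h
    · refine ⟨b, List.mem_cons_self, ?_⟩
      have h1 := per_inj (Sum.inl : Fin (bsz b) → HB (b :: L)) Sum.inl_injective
        (finRotate (bsz b)) (gB (b :: L)) (fun _ => rfl) t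
      exact h1.trans (per_rot _ t)
    · obtain ⟨b', hb', hp⟩ := ih h
      refine ⟨b', List.mem_cons_of_mem _ hb', ?_⟩
      have h1 := per_inj (Sum.inr : HB L → HB (b :: L)) Sum.inr_injective
        (gB L) (gB (b :: L)) (fun _ => rfl) h
      exact h1.trans hp

end Pool.Agent.UMG.B.H24
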